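import Pool.Agent.H28.Anti5

set_option autoImplicit false

namespace Pool.Agent.Results.MP_5d01ce_co.AntichainNoUniform

open Pool.Agent.H28.Anti

/-- There is an infinite antichain of finite matroids in which every positive integer is the Tutte
connectivity of some member, and no member has a `U_{3,20}`-minor. -/
theorem result : ∃ (α : ℕ → Type) (M : ∀ i, Matroid (α i)), (∀ i, (M i).Finite) ∧
    (∀ i j, i ≠ j → ¬ HasMinor (M i) (M j)) ∧ (∀ k, 1 ≤ k → ∃ i, TutteConn (M i) k) ∧
    ∀ i, ¬ HasMinor (M i) (unif 3 20) :=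
  Pool.Agent.H28.Anti.main

end Pool.Agent.Results.MP_5d01ce_co.AntichainNoUniform
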